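import Pool.Agent.N62.RF3
import Pool.Agent.N62.Malcev
import Pool.Agent.N62.Main
import Pool.Agent.H53R2.SFinal

set_option autoImplicit false

namespace Pool.Agent.Results.MP_364ede_al.Classification

open scoped commutatorElement

/-- `G` belongs to the variety of groups defined by the laws `w = 1`, `w ∈ W`. -/
def InVariety (W : Set (FreeGroup ℕ)) (G : Type) [Group G] : Prop :=
  ∀ w ∈ W, ∀ f : ℕ → G, FreeGroup.lift f w = 1

/-- the variety defined by `W` is soluble: the derived lengths of its groups are bounded. -/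
def SolubleVariety (W : Set (FreeGroup ℕ)) : Prop :=
  ∃ d : ℕ, ∀ (G : Type) [Group G], InVariety W G → derivedSeries G d = ⊥

/-- every finitely generated group in the variety is residually finite. -/
def FGResiduallyFinite (W : Set (FreeGroup ℕ)) : Prop :=
  ∀ (G : Type) [Group G], Group.FG G → InVariety W G → Group.ResiduallyFinite G

/-- every finitely generated group in the variety is Hopfian: its surjective endomorphisms are
injective. -/
def FGHopfian (W : Set (FreeGroup ℕ)) : Prop :=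
  ∀ (G : Type) [Group G], Group.FG G → InVariety W G →
    ∀ φ : G →* G, Function.Surjective φ → Function.Injective φ

/-- every finitely generated group in the variety satisfies the maximal condition on normal
subgroups: every normal subgroup is the normal closure of a finite set. -/
def FGMaxNormal (W : Set (FreeGroup ℕ)) : Prop :=
  ∀ (G : Type) [Group G], Group.FG G → InVariety W G →
    ∀ N : Subgroup G, N.Normal → ∃ S : Finset G, N = Subgroup.normalClosure (S : Set G)

/-- the variety satisfies a law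
`[b, m] = ∏ₖ wₖ [b, t ^ iₖ m t ^ (-iₖ)] ^ eₖ wₖ⁻¹` with words `wₖ` in `b`, `m`, `t` and nonzero
integers `iₖ`. -/
def HasConjugateLaw (W : Set (FreeGroup ℕ)) : Prop :=
  ∃ (n : ℕ) (w : Fin n → FreeGroup (Fin 3)) (i e : Fin n → ℤ), (∀ k, i k ≠ 0) ∧
    ∀ (G : Type) [Group G], InVariety W G → ∀ b m t : G,
      ⁅b, m⁆ = (List.ofFn fun k : Fin n => FreeGroup.lift ![b, m, t] (w k) *
        ⁅b, t ^ (i k) * m * t ^ (-(i k))⁆ ^ (e k) * (FreeGroup.lift ![b, m, t] (w k))⁻¹).prod

/-- P. Hall's group `H_p`: the set of all `(f, g, c, n)` with finitely supported functions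
`f g : ℤ → 𝔽_p`, `c ∈ 𝔽_p` and `n ∈ ℤ`, with the multiplication
`(f, g, c, n) (f', g', c', n') = (f + Tⁿ f', g + Tⁿ g', c + c' + ∑ᵢ f(i) (Tⁿ g')(i), n + n')`,
where `(Tⁿ f)(i + n) = f(i)`. It is generated by `b = (δ₀, 0, 0, 0)`, `m = (0, δ₀, 0, 0)` and
`t = (0, 0, 0, 1)`. -/
abbrev HallGroup (p : ℕ) : Type := N62.HG p

/-- the wreath product `(C_q wr C_p) wr C_∞` -/
abbrev TripleWreath (q p : ℕ) : Type :=
  RegularWreathProduct (RegularWreathProduct (Multiplicative (ZMod q)) (Multiplicative (ZMod p)))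
    (Multiplicative ℤ)

/-- the variety contains none of the groups `H_p` (`p` prime) and none of the groups
`(C_q wr C_p) wr C_∞` (`p ≠ q` prime). -/
def NoBadGroup (W : Set (FreeGroup ℕ)) : Prop :=
  (∀ p : ℕ, p.Prime → ¬ InVariety W (HallGroup p)) ∧
    ∀ p q : ℕ, p.Prime → q.Prime → p ≠ q → ¬ InVariety W (TripleWreath q p)

theorem result (W : Set (FreeGroup ℕ)) (hsol : SolubleVariety W) :
    List.TFAE [FGResiduallyFinite W, NoBadGroup W, HasConjugateLaw W, FGHopfian W,
      FGMaxNormal W] := by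
  obtain ⟨d, hd⟩ := hsol
  have hUI : HasConjugateLaw W ↔ ∃ u : H53R2.UI, ∀ (G : Type) [Group G], InVariety W G →
      u.Grp G := by
    constructor
    · rintro ⟨n, w, i, e, hi, h⟩
      exact ⟨⟨n, w, i, e, hi⟩, fun G _ hG => h G hG⟩
    · rintro ⟨u, hu⟩
      exact ⟨u.n, u.w, u.i, u.e, u.hi, fun G _ hG => hu G hG⟩
  tfae_have 1 → 4 := fun h G _ hfg hG φ hφ => by
    have := h G hfg hG
    exact N62.malcev G φ hφ
  tfae_have 4 → 3 := fun hopf => by
    have hQ : H53R2.QHopf (H53R2.RF W 3) := by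
      intro N _ φ hφ
      have hfg : Group.FG (H53R2.RF W 3) := QuotientGroup.fg _
      have hfg2 : Group.FG (H53R2.RF W 3 ⧸ N) := QuotientGroup.fg _
      exact hopf _ hfg2 ((H53R2.RF_inVar W 3).quot N) φ hφ
    exact hUI.2 (H53R2.exists_UI W hQ)
  tfae_have 3 → 1 := fun h G _ hfg hG => by
    obtain ⟨u, hu⟩ := hUI.1 h
    exact N62.resFin_of_UI u d G (hu G hG) (hd G hG)
  tfae_have 3 → 5 := fun h G _ hfg hG => by
    obtain ⟨u, hu⟩ := hUI.1 h
    exact (H53R2.U_main u d G (hu G hG) (hd G hG)).2.normalClosure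
  tfae_have 5 → 4 := fun h G _ hfg hG φ hφ => by
    have hmax : H53R2.MaxN G := by
      rw [H53R2.K_maxN_iff]
      intro f hf hn
      have hmem : ∀ x, x ∈ (⨆ n, f n) ↔ ∃ n, x ∈ f n := fun x =>
        Subgroup.mem_iSup_of_directed hf.directed_le
      have hUn : (⨆ n, f n).Normal := by
        constructor
        intro x hx g
        obtain ⟨n, hn'⟩ := (hmem x).1 hx
        exact (hmem _).2 ⟨n, (hn n).conj_mem x hn' g⟩
      obtain ⟨S, hS⟩ := h G hfg hG (⨆ n, f n) hUn
      have hSU : ∀ s ∈ S, ∃ n, s ∈ f n := fun s hs => (hmem s).1 (by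
        rw [hS]; exact Subgroup.subset_normalClosure hs)
      choose! k hk using hSU
      refine ⟨S.sup k, fun m hm => le_antisymm ?_ (hf hm)⟩
      have := hn (S.sup k)
      refine (le_iSup f m).trans ?_
      rw [hS]
      apply Subgroup.normalClosure_le_normal
      intro s hs
      exact hf (Finset.le_sup (f := k) hs) (hk s hs)
    exact H53R2.hopfian_of_maxN hmax φ hφ
  tfae_have 3 → 2 := fun h => by
    obtain ⟨u, hu⟩ := hUI.1 h
    refine ⟨fun p hp hG => ?_, fun p q hp hq _ hG => ?_⟩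
    · have : Fact p.Prime := ⟨hp⟩
      obtain ⟨b, m, t, hbad⟩ := N62.bad_HG p
      exact N62.not_grp_of_bad hbad u (hu _ hG)
    · have : Fact p.Prime := ⟨hp⟩
      have : Fact q.Prime := ⟨hq⟩
      obtain ⟨b, m, t, hbad⟩ := N62.bad_CWr p q
      exact N62.not_grp_of_bad hbad u (hu _ hG)
  tfae_have 2 → 3 := fun h => by
    by_contra hcon
    rw [hUI] at hcon
    rcases N62.cases_of_not_UI W d hd hcon with ⟨p, hp, hG⟩ | ⟨p, q, hp, hq, hpq, hG⟩
    · exact h.1 p hp hG
    · exact h.2 p q hp hq hpq hG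
  tfae_finish

end Pool.Agent.Results.MP_364ede_al.Classification
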